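import Mathlib

set_option autoImplicit false

universe u

namespace Pool.Agent.Results.MP_6a28f0_gt.ProdWL

open Set

/-- `𝒰` is an open cover of the space `X`. -/
def IsOpenCover {X : Type u} [TopologicalSpace X] (𝒰 : Set (Set X)) : Prop :=
  (∀ U ∈ 𝒰, IsOpen U) ∧ ⋃₀ 𝒰 = univ

/-- `X` is weakly Lindelöf: every open cover has a countable subfamily with dense union. -/
def WeaklyLindelof (X : Type u) [TopologicalSpace X] : Prop :=
  ∀ 𝒰 : Set (Set X), IsOpenCover 𝒰 → ∃ 𝒱 : Set (Set X), 𝒱 ⊆ 𝒰 ∧ 𝒱.Countable ∧ Dense (⋃₀ 𝒱)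

/-- `X` is productively weakly Lindelöf: `X × Y` is weakly Lindelöf for every weakly
Lindelöf space `Y`. -/
def ProductivelyWeaklyLindelof (X : Type u) [TopologicalSpace X] : Prop :=
  ∀ (Y : Type u) [TopologicalSpace Y], WeaklyLindelof Y → WeaklyLindelof (X × Y)

/-- `X` is weakly Scheepers: for every sequence of open covers there are finite subfamilies
`𝒱 n` such that for every finite family `ℱ` of nonempty open sets, there are infinitely many `n`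
for which the union of `𝒱 n` meets all members of `ℱ`. -/
def WeaklyScheepers (X : Type u) [TopologicalSpace X] : Prop :=
  ∀ 𝒰 : ℕ → Set (Set X), (∀ n, IsOpenCover (𝒰 n)) →
    ∃ 𝒱 : ℕ → Set (Set X), (∀ n, 𝒱 n ⊆ 𝒰 n ∧ (𝒱 n).Finite) ∧
      ∀ ℱ : Set (Set X), ℱ.Finite → (∀ F ∈ ℱ, IsOpen F ∧ F.Nonempty) →
        {n : ℕ | ∀ F ∈ ℱ, (F ∩ ⋃₀ 𝒱 n).Nonempty}.Infinite

/-- `X` is weakly Menger (used in the proof only). -/
def WeaklyMenger (X : Type u) [TopologicalSpace X] : Prop :=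
  ∀ 𝒰 : ℕ → Set (Set X), (∀ n, IsOpenCover (𝒰 n)) →
    ∃ 𝒱 : ℕ → Set (Set X), (∀ n, 𝒱 n ⊆ 𝒰 n ∧ (𝒱 n).Finite) ∧ Dense (⋃ n, ⋃₀ 𝒱 n)

section Construction

variable {X : Type u} (𝒰 : ℕ → Set (Set X))

/-- sequences of finite subfamilies of the covers -/
abbrev Sel : Type u := {y : ℕ → Finset (Set X) // ∀ n, ∀ U ∈ y n, U ∈ 𝒰 n}

/-- the small sets -/
def small (F : Sel 𝒰) : Set (Sel 𝒰) := {y | ∀ n, ¬ (F.1 n ⊆ y.1 n)}

/-- the basic large sets -/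
def big (n : ℕ) (U : Set X) : Set (Sel 𝒰) := {y | U ∈ y.1 n}

/-- the test space, a subspace of the Čech-Stone compactification of the discrete space `Sel`. -/
abbrev Tst : Type u :=
  {p : Ultrafilter (Sel 𝒰) // (∃ F : Sel 𝒰, small 𝒰 F ∈ p) ∨
    ∃ n, ∀ U ∈ 𝒰 n, big 𝒰 n U ∈ p}

end Construction

section Main

variable {X : Type u} [TopologicalSpace X] (𝒰 : ℕ → Set (Set X))

theorem exists_small (hcov : ∀ n, IsOpenCover (𝒰 n))
    (hnot : ∀ y : Sel 𝒰, ¬ Dense (⋃ n, ⋃₀ (y.1 n : Set (Set X)))) (y : Sel 𝒰) :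
    ∃ F : Sel 𝒰, y ∈ small 𝒰 F := by
  have h : ∀ n, ∃ U ∈ 𝒰 n, U ∉ y.1 n := by
    intro n
    by_contra hcon
    push Not at hcon
    apply hnot y
    have : (⋃ n, ⋃₀ (y.1 n : Set (Set X))) = univ := by
      apply eq_univ_of_forall
      intro x
      have hx : x ∈ ⋃₀ 𝒰 n := by rw [(hcov n).2]; trivial
      obtain ⟨U, hU, hxU⟩ := hx
      exact mem_iUnion.2 ⟨n, U, hcon U hU, hxU⟩
    rw [this]
    exact dense_univ
  choose U hU hUy using h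
  refine ⟨⟨fun n => {U n}, ?_⟩, ?_⟩
  · intro n V hV
    rw [Finset.mem_singleton] at hV
    rw [hV]; exact hU n
  · intro n hsub
    exact hUy n (hsub (Finset.mem_singleton_self _))

theorem wl_test (hcov : ∀ n, IsOpenCover (𝒰 n))
    (hnot : ∀ y : Sel 𝒰, ¬ Dense (⋃ n, ⋃₀ (y.1 n : Set (Set X)))) :
    WeaklyLindelof (Tst 𝒰) := by
  classical
  intro 𝒪 h𝒪
  -- open sets of the big space
  let 𝒢 : Set (Set (Ultrafilter (Sel 𝒰))) := {G | IsOpen G ∧ (Subtype.val ⁻¹' G : Set (Tst 𝒰)) ∈ 𝒪}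
  have hmem : ∀ p : Tst 𝒰, ∃ G ∈ 𝒢, p.1 ∈ G := by
    intro p
    have hp : p ∈ ⋃₀ 𝒪 := by rw [h𝒪.2]; trivial
    obtain ⟨O, hO, hpO⟩ := hp
    obtain ⟨G, hG, rfl⟩ := isOpen_induced_iff.1 (h𝒪.1 O hO)
    exact ⟨G, ⟨hG, hO⟩, hpO⟩
  -- a compact subset of the big space contained in the test space is covered by finitely many
  have hfin : ∀ K : Set (Ultrafilter (Sel 𝒰)), IsCompact K →
      (∀ p ∈ K, (∃ F : Sel 𝒰, small 𝒰 F ∈ p) ∨ ∃ n, ∀ U ∈ 𝒰 n, big 𝒰 n U ∈ p) →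
      ∃ 𝒢' : Set (Set (Ultrafilter (Sel 𝒰))), 𝒢' ⊆ 𝒢 ∧ 𝒢'.Finite ∧ K ⊆ ⋃₀ 𝒢' := by
    intro K hK hKsub
    obtain ⟨𝒢', hs, hf, hc⟩ := hK.elim_finite_subcover_image (b := 𝒢) (c := fun G => G)
      (fun G hG => hG.1) (by
        intro p hp
        obtain ⟨G, hG, hpG⟩ := hmem ⟨p, hKsub p hp⟩
        exact mem_iUnion₂.2 ⟨G, hG, hpG⟩)
    refine ⟨𝒢', hs, hf, ?_⟩
    rw [sUnion_eq_biUnion]
    exact hc
  have hbig : ∀ n, ∃ 𝒢' : Set (Set (Ultrafilter (Sel 𝒰))), ∃ E : Finset (Set X),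
      𝒢' ⊆ 𝒢 ∧ 𝒢'.Finite ∧ (∀ U ∈ E, U ∈ 𝒰 n) ∧
      ∀ y : Sel 𝒰, E ⊆ y.1 n → (pure y : Ultrafilter (Sel 𝒰)) ∈ ⋃₀ 𝒢' := by
    intro n
    let A : 𝒰 n → Set (Ultrafilter (Sel 𝒰)) := fun U => {p | big 𝒰 n U.1 ∈ p}
    have hA : ∀ U, IsClosed (A U) := fun U => ultrafilter_isClosed_basic _
    have hKc : IsCompact (⋂ U, A U) := (isClosed_iInter hA).isCompact
    obtain ⟨𝒢', h1, h2, h3⟩ := hfin _ hKc (by
      intro p hp
      right
      refine ⟨n, fun U hU => ?_⟩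
      exact mem_iInter.1 hp ⟨U, hU⟩)
    have hopen : IsOpen (⋃₀ 𝒢') := isOpen_sUnion fun G hG => (h1 hG).1
    have hcomp : IsCompact (⋃₀ 𝒢')ᶜ := hopen.isClosed_compl.isCompact
    obtain ⟨t, ht⟩ := hcomp.elim_finite_subfamily_closed A hA (by
      ext p
      simp only [mem_inter_iff, mem_compl_iff, mem_empty_iff_false, iff_false, not_and]
      intro hp hp'
      exact hp (h3 hp'))
    refine ⟨𝒢', t.image Subtype.val, h1, h2, ?_, ?_⟩
    · intro U hU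
      obtain ⟨V, -, rfl⟩ := Finset.mem_image.1 hU
      exact V.2
    · intro y hy
      by_contra hcon
      have : (pure y : Ultrafilter (Sel 𝒰)) ∈ (⋃₀ 𝒢')ᶜ ∩ ⋂ i ∈ t, A i := by
        refine ⟨hcon, ?_⟩
        refine mem_iInter₂.2 fun U hU => ?_
        change big 𝒰 n U.1 ∈ (pure y : Ultrafilter (Sel 𝒰))
        rw [Ultrafilter.mem_pure]
        exact hy (Finset.mem_image_of_mem _ hU)
      rw [ht] at this
      exact this
  choose 𝒢n E h1 h2 h3 h4 using hbig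
  let F : Sel 𝒰 := ⟨E, h3⟩
  obtain ⟨𝒢', h5, h6, h7⟩ := hfin {p | small 𝒰 F ∈ p}
    (ultrafilter_isClosed_basic _).isCompact (fun p hp => Or.inl ⟨F, hp⟩)
  let 𝒢0 : Set (Set (Ultrafilter (Sel 𝒰))) := (⋃ n, 𝒢n n) ∪ 𝒢'
  have hc : 𝒢0.Countable := (countable_iUnion fun n => (h2 n).countable).union h6.countable
  have hsub : 𝒢0 ⊆ 𝒢 := union_subset (iUnion_subset h1) h5
  have hcover : ∀ y : Sel 𝒰, (pure y : Ultrafilter (Sel 𝒰)) ∈ ⋃₀ 𝒢0 := by
    intro y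
    by_cases hy : y ∈ small 𝒰 F
    · obtain ⟨G, hG, hyG⟩ := h7 (show (pure y : Ultrafilter (Sel 𝒰)) ∈ {p | small 𝒰 F ∈ p} from hy)
      exact ⟨G, Or.inr hG, hyG⟩
    · have : ∃ n, F.1 n ⊆ y.1 n := by
        by_contra hcon
        push Not at hcon
        exact hy hcon
      obtain ⟨n, hn⟩ := this
      obtain ⟨G, hG, hyG⟩ := h4 n y hn
      exact ⟨G, Or.inl (mem_iUnion.2 ⟨n, hG⟩), hyG⟩
  refine ⟨(fun G => (Subtype.val ⁻¹' G : Set (Tst 𝒰))) '' 𝒢0, ?_, hc.image _, ?_⟩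
  · rintro _ ⟨G, hG, rfl⟩
    exact (hsub hG).2
  · rw [dense_iff_inter_open]
    rintro O hO ⟨q, hq⟩
    obtain ⟨G, hG, rfl⟩ := isOpen_induced_iff.1 hO
    obtain ⟨_, hy, ⟨y, rfl⟩⟩ := (denseRange_pure (α := Sel 𝒰)).inter_open_nonempty G hG ⟨q.1, hq⟩
    obtain ⟨F', hF'⟩ := exists_small 𝒰 hcov hnot y
    refine ⟨⟨pure y, Or.inl ⟨F', hF'⟩⟩, hy, ?_⟩
    obtain ⟨G', hG', hyG'⟩ := hcover y
    exact ⟨_, ⟨G', hG', rfl⟩, hyG'⟩

theorem not_wl_prod (hcov : ∀ n, IsOpenCover (𝒰 n))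
    (hnot : ∀ y : Sel 𝒰, ¬ Dense (⋃ n, ⋃₀ (y.1 n : Set (Set X)))) :
    ¬ WeaklyLindelof (X × Tst 𝒰) := by
  classical
  intro hwl
  let B : ℕ → Set X → Set (X × Tst 𝒰) := fun n U => U ×ˢ {p : Tst 𝒰 | big 𝒰 n U ∈ p.1}
  let C : Sel 𝒰 → Set (X × Tst 𝒰) := fun F => (univ : Set X) ×ˢ {p : Tst 𝒰 | small 𝒰 F ∈ p.1}
  let 𝒲 : Set (Set (X × Tst 𝒰)) := {W | (∃ n, ∃ U ∈ 𝒰 n, W = B n U) ∨ ∃ F, W = C F}
  have hopen : ∀ A : Set (Sel 𝒰), IsOpen {p : Tst 𝒰 | A ∈ p.1} := fun A =>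
    (ultrafilter_isOpen_basic A).preimage continuous_subtype_val
  have h𝒲 : IsOpenCover 𝒲 := by
    refine ⟨?_, ?_⟩
    · rintro W (⟨n, U, hU, rfl⟩ | ⟨F, rfl⟩)
      · exact ((hcov n).1 U hU).prod (hopen _)
      · exact isOpen_univ.prod (hopen _)
    · apply eq_univ_of_forall
      rintro ⟨x, p⟩
      rcases p.2 with ⟨F, hF⟩ | ⟨n, hn⟩
      · exact ⟨C F, Or.inr ⟨F, rfl⟩, mem_univ _, hF⟩
      · have hx : x ∈ ⋃₀ 𝒰 n := by rw [(hcov n).2]; trivial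
        obtain ⟨U, hU, hxU⟩ := hx
        exact ⟨B n U, Or.inl ⟨n, U, hU, rfl⟩, hxU, hn U hU⟩
  obtain ⟨𝒲0, hsub, hcount, hdense⟩ := hwl 𝒲 h𝒲
  -- a default selection
  let y0 : Sel 𝒰 := ⟨fun _ => ∅, by simp⟩
  let c : Set (X × Tst 𝒰) → Sel 𝒰 := fun W => if h : ∃ F, W = C F then h.choose else y0
  have hcspec : ∀ W, (∃ F, W = C F) → W = C (c W) := by
    intro W h
    have : c W = h.choose := by simp only [c, dif_pos h]
    rw [this]
    exact h.choose_spec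
  obtain ⟨F, hF⟩ := ((hcount.image c).insert y0).exists_eq_range (insert_nonempty _ _)
  let y : Sel 𝒰 := ⟨fun n => (F n).1 n, fun n => (F n).2 n⟩
  have hy : ∀ j, y ∉ small 𝒰 (F j) := fun j h => h j (Finset.Subset.refl _)
  have hnd := hnot y
  rw [dense_iff_inter_open] at hnd
  push Not at hnd
  obtain ⟨N, hN, hNne, hNd⟩ := hnd
  obtain ⟨F', hF'⟩ := exists_small 𝒰 hcov hnot y
  obtain ⟨x, hx⟩ := hNne
  obtain ⟨⟨x', p⟩, ⟨hx', hp⟩, W, hW, hxW⟩ :=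
    hdense.inter_open_nonempty (N ×ˢ {p : Tst 𝒰 | {y} ∈ p.1}) (hN.prod (hopen _))
      ⟨(x, ⟨pure y, Or.inl ⟨F', hF'⟩⟩), hx, by
        change ({y} : Set (Sel 𝒰)) ∈ (pure y : Ultrafilter (Sel 𝒰))
        exact mem_singleton y⟩
  have hp' : ({y} : Set (Sel 𝒰)) ∈ p.1 := hp
  rcases hsub hW with ⟨n, U, hU, rfl⟩ | hex
  · obtain ⟨hxU, hpU⟩ := hxW
    have hpU' : big 𝒰 n U ∈ p.1 := hpU
    obtain ⟨z, hz1, hz2⟩ := p.1.nonempty_of_mem (Filter.inter_mem hp' hpU')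
    rw [mem_singleton_iff] at hz1
    subst hz1
    have : x' ∈ N ∩ ⋃ n, ⋃₀ (y.1 n : Set (Set X)) :=
      ⟨hx', mem_iUnion.2 ⟨n, U, hz2, hxU⟩⟩
    rw [hNd] at this
    exact this
  · have hWc := hcspec W hex
    have hcr : c W ∈ range F := by
      rw [← hF]; exact Or.inr (mem_image_of_mem _ hW)
    obtain ⟨j, hj⟩ := hcr
    rw [hWc, ← hj] at hxW
    have hpS : small 𝒰 (F j) ∈ p.1 := hxW.2
    obtain ⟨z, hz1, hz2⟩ := p.1.nonempty_of_mem (Filter.inter_mem hp' hpS)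
    rw [mem_singleton_iff] at hz1
    subst hz1
    exact hy j hz2

end Main

theorem weaklyMenger_of_productively (X : Type u) [TopologicalSpace X]
    (h : ProductivelyWeaklyLindelof X) : WeaklyMenger X := by
  intro 𝒰 hcov
  by_contra hcon
  push Not at hcon
  have hnot : ∀ y : Sel 𝒰, ¬ Dense (⋃ n, ⋃₀ (y.1 n : Set (Set X))) := by
    intro y
    exact hcon (fun n => (y.1 n : Set (Set X))) (fun n => ⟨fun U hU => y.2 n U hU, Finset.finite_toSet _⟩)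
  exact not_wl_prod 𝒰 hcov hnot (h _ (wl_test 𝒰 hcov hnot))

theorem weaklyLindelof_of_surj {A B : Type u} [TopologicalSpace A] [TopologicalSpace B]
    (f : A → B) (hf : Continuous f) (hs : Function.Surjective f) (hA : WeaklyLindelof A) :
    WeaklyLindelof B := by
  intro 𝒰 h𝒰
  obtain ⟨𝒱, h1, h2, h3⟩ := hA ((fun U => f ⁻¹' U) '' 𝒰) ⟨by
      rintro _ ⟨U, hU, rfl⟩
      exact (h𝒰.1 U hU).preimage hf, by
      apply eq_univ_of_forall
      intro a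
      have : f a ∈ ⋃₀ 𝒰 := by rw [h𝒰.2]; trivial
      obtain ⟨U, hU, haU⟩ := this
      exact ⟨_, ⟨U, hU, rfl⟩, haU⟩⟩
  refine ⟨{U ∈ 𝒰 | f ⁻¹' U ∈ 𝒱}, fun U hU => hU.1, ?_, ?_⟩
  · -- the preimage map is injective since f is surjective
    refine (h2.preimage_of_injOn (f := fun U : Set B => f ⁻¹' U) ?_).mono (fun U hU => hU.2)
    intro U _ V _ hUV
    exact hs.preimage_injective hUV
  · rw [dense_iff_inter_open]
    rintro O hO ⟨b, hb⟩
    obtain ⟨a, rfl⟩ := hs b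
    obtain ⟨a', ha', V, hV, haV⟩ := h3.inter_open_nonempty (f ⁻¹' O) (hO.preimage hf) ⟨a, hb⟩
    obtain ⟨U, hU, rfl⟩ := h1 hV
    exact ⟨f a', ha', U, ⟨hU, hV⟩, haV⟩

theorem productively_pow (X : Type u) [TopologicalSpace X]
    (h : ProductivelyWeaklyLindelof X) (k : ℕ) : ProductivelyWeaklyLindelof (Fin k → X) := by
  induction k with
  | zero =>
    intro Y _ hY
    refine weaklyLindelof_of_surj (fun y : Y => ((fun i => i.elim0 : Fin 0 → X), y)) ?_ ?_ hY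
    · exact continuous_const.prodMk continuous_id
    · rintro ⟨g, y⟩
      exact ⟨y, Prod.ext (Subsingleton.elim _ _) rfl⟩
  | succ k ih =>
    intro Y _ hY
    have h1 : WeaklyLindelof (X × ((Fin k → X) × Y)) := h _ (ih Y hY)
    refine weaklyLindelof_of_surj
      (fun q : X × ((Fin k → X) × Y) => ((Fin.cons q.1 q.2.1 : Fin (k+1) → X), q.2.2)) ?_ ?_ h1
    · refine Continuous.prodMk ?_ (continuous_snd.comp continuous_snd)
      refine continuous_pi fun i => ?_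
      refine Fin.cases ?_ (fun j => ?_) i
      · exact continuous_fst
      · exact (continuous_apply j).comp (continuous_fst.comp continuous_snd)
    · rintro ⟨g, y⟩
      exact ⟨(g 0, (fun j => g j.succ, y)), Prod.ext (Fin.cons_self_tail g) rfl⟩

/-- Every productively weakly Lindelöf space is weakly Scheepers. -/
theorem result (X : Type u) [TopologicalSpace X] (h : ProductivelyWeaklyLindelof X) :
    WeaklyScheepers X := by
  classical
  intro 𝒰 hcov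
  -- the box covers of the finite powers
  have hM : ∀ k : ℕ, WeaklyMenger (Fin k → X) := fun k =>
    weaklyMenger_of_productively _ (productively_pow X h k)
  let box : (k : ℕ) → ℕ → Set (Set (Fin k → X)) := fun k n =>
    {W | ∃ w : Fin k → Set X, (∀ i, w i ∈ 𝒰 n) ∧ W = Set.pi univ w}
  have hbox : ∀ k n, IsOpenCover (box k n) := by
    intro k n
    refine ⟨?_, ?_⟩
    · rintro W ⟨w, hw, rfl⟩
      exact isOpen_set_pi finite_univ fun i _ => (hcov n).1 _ (hw i)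
    · apply eq_univ_of_forall
      intro x
      have : ∀ i, ∃ U ∈ 𝒰 n, x i ∈ U := by
        intro i
        have hx : x i ∈ ⋃₀ 𝒰 n := by rw [(hcov n).2]; trivial
        exact hx
      choose w hw hxw using this
      exact ⟨_, ⟨w, hw, rfl⟩, fun i _ => hxw i⟩
  have hsel : ∀ k j : ℕ, ∃ 𝒲 : ℕ → Set (Set (Fin k → X)),
      (∀ i, 𝒲 i ⊆ box k (Nat.pair (Nat.pair k j) i) ∧ (𝒲 i).Finite) ∧
        Dense (⋃ i, ⋃₀ 𝒲 i) := fun k j =>
    hM k (fun i => box k (Nat.pair (Nat.pair k j) i)) (fun i => hbox k _)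
  choose 𝒲 h𝒲1 h𝒲2 using hsel
  -- choose the sides of boxes
  let side : (k : ℕ) → (n : ℕ) → Set (Fin k → X) → (Fin k → Set X) := fun k n W =>
    if hW : W ∈ box k n then hW.choose else fun _ => ∅
  have hside : ∀ k n W, W ∈ box k n → (∀ i, side k n W i ∈ 𝒰 n) ∧ W = Set.pi univ (side k n W) := by
    intro k n W hW
    have : side k n W = hW.choose := by simp only [side, dif_pos hW]
    rw [this]
    exact hW.choose_spec
  let 𝒱' : (k j i : ℕ) → Set (Set X) := fun k j i =>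
    ⋃ W ∈ 𝒲 k j i, range (side k (Nat.pair (Nat.pair k j) i) W)
  let 𝒱 : ℕ → Set (Set X) := fun n =>
    𝒱' (Nat.unpair (Nat.unpair n).1).1 (Nat.unpair (Nat.unpair n).1).2 (Nat.unpair n).2
  have h𝒱eq : ∀ k j i, 𝒱 (Nat.pair (Nat.pair k j) i) = 𝒱' k j i := by
    intro k j i
    simp only [𝒱, Nat.unpair_pair]
  have h𝒱' : ∀ k j i, 𝒱' k j i ⊆ 𝒰 (Nat.pair (Nat.pair k j) i) ∧ (𝒱' k j i).Finite := by
    intro k j i
    refine ⟨?_, ?_⟩
    · refine iUnion₂_subset fun W hW => ?_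
      rintro _ ⟨l, rfl⟩
      exact (hside k _ W ((h𝒲1 k j i).1 hW)).1 l
    · exact (h𝒲1 k j i).2.biUnion fun W _ => finite_range _
  refine ⟨𝒱, ?_, ?_⟩
  · intro n
    have h1 := h𝒱' (Nat.unpair (Nat.unpair n).1).1 (Nat.unpair (Nat.unpair n).1).2 (Nat.unpair n).2
    rw [Nat.pair_unpair, Nat.pair_unpair] at h1
    exact h1
  · intro ℱ hℱ hℱo
    obtain ⟨k, f, hf⟩ : ∃ k : ℕ, ∃ f : Fin k → Set X, range f = ℱ := by
      obtain ⟨k, e, -, he⟩ := hℱ.fin_param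
      exact ⟨k, e, he⟩
    have hfo : ∀ i, IsOpen (f i) ∧ (f i).Nonempty := fun i =>
      hℱo (f i) (by rw [← hf]; exact mem_range_self i)
    have hex : ∀ j, ∃ i, Nat.pair (Nat.pair k j) i ∈
        {n : ℕ | ∀ F ∈ ℱ, (F ∩ ⋃₀ 𝒱 n).Nonempty} := by
      intro j
      have hne : (Set.pi univ f).Nonempty := univ_pi_nonempty_iff.2 fun i => (hfo i).2
      obtain ⟨x, hx, hx2⟩ := (h𝒲2 k j).inter_open_nonempty (Set.pi univ f)
        (isOpen_set_pi finite_univ fun i _ => (hfo i).1) hne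
      obtain ⟨i, W, hW, hxW⟩ := mem_iUnion.1 hx2
      refine ⟨i, ?_⟩
      intro F hF
      rw [← hf] at hF
      obtain ⟨l, rfl⟩ := hF
      obtain ⟨hs1, hs2⟩ := hside k _ W ((h𝒲1 k j i).1 hW)
      refine ⟨x l, hx l (mem_univ _), ?_⟩
      rw [h𝒱eq]
      refine ⟨side k (Nat.pair (Nat.pair k j) i) W l, ?_, ?_⟩
      · exact mem_iUnion₂.2 ⟨W, hW, mem_range_self l⟩
      · rw [hs2] at hxW
        exact hxW l (mem_univ _)
    choose i hi using hex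
    refine Set.infinite_of_injective_forall_mem (f := fun j => Nat.pair (Nat.pair k j) (i j)) ?_ hi
    intro a b hab
    have h1 : Nat.pair k a = Nat.pair k b := (Nat.pair_eq_pair.1 hab).1
    exact (Nat.pair_eq_pair.1 h1).2

end Pool.Agent.Results.MP_6a28f0_gt.ProdWL
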